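import Mathlib

/-!
# Pointwise function spaces into strong d-spaces

A strong `d`-space `Y` whose square is not a strong `d`-space.  Since for the
two-point discrete space `X` the space of all continuous maps `X → Y` with the
pointwise topology is the square of `Y`, this answers the question in the negative.
-/

namespace Pool.Agent.Results.MP_5f2357_gt.PowerFails

open Set

/-- The upper set of `x` for the specialization order `x ≤ y ↔ x ∈ closure {y}`. -/
def upSet {X : Type*} [TopologicalSpace X] (x : X) : Set X := {y | x ∈ closure {y}}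

/-- Strong `d`-spaces: `T₀` spaces such that for every nonempty directed `D`, every
point `x` and every open `U`, if the intersection of all `upSet d` (`d ∈ D`) with
`upSet x` lies in `U`, then `upSet d ∩ upSet x ⊆ U` for some `d ∈ D`. -/
def IsStrongDSpace (X : Type*) [TopologicalSpace X] : Prop :=
  T0Space X ∧ ∀ D : Set X, D.Nonempty → DirectedOn (fun x y : X => x ∈ closure {y}) D →
    ∀ x : X, ∀ U : Set X, IsOpen U → (⋂ d ∈ D, upSet d) ∩ upSet x ⊆ U →
      ∃ d ∈ D, upSet d ∩ upSet x ⊆ U

/-- The points of the counterexample: `nat n` and `top` form `ω + 1` with the Scott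
topology, `a`, `b` and `c n` form a poset with `a, b < c n` and all upper sets open. -/
inductive Pt where
  | nat : ℕ → Pt
  | top : Pt
  | a : Pt
  | b : Pt
  | c : ℕ → Pt

/-- The order of the counterexample. -/
def ple : Pt → Pt → Prop
  | .nat m, .nat n => m ≤ n
  | .nat _, .top => True
  | .top, .top => True
  | .a, .a => True
  | .a, .c _ => True
  | .b, .b => True
  | .b, .c _ => True
  | .c m, .c n => m = n
  | _, _ => False

theorem ple_refl (x : Pt) : ple x x := by
  cases x <;> simp [ple]

theorem ple_trans {x y z : Pt} (h : ple x y) (h' : ple y z) : ple x z := by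
  cases x <;> cases y <;> cases z <;> simp_all [ple] <;> omega

theorem ple_antisymm {x y : Pt} (h : ple x y) (h' : ple y x) : x = y := by
  cases x <;> cases y <;> simp_all [ple] <;> omega

instance : TopologicalSpace Pt where
  IsOpen U := (∀ x y, ple x y → x ∈ U → y ∈ U) ∧ (Pt.top ∈ U → ∃ n, Pt.nat n ∈ U)
  isOpen_univ := ⟨fun _ _ _ _ => mem_univ _, fun _ => ⟨0, mem_univ _⟩⟩
  isOpen_inter := by
    rintro s t ⟨hs, hs'⟩ ⟨ht, ht'⟩
    refine ⟨fun x y h hx => ⟨hs x y h hx.1, ht x y h hx.2⟩, fun h => ?_⟩
    obtain ⟨m, hm⟩ := hs' h.1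
    obtain ⟨n, hn⟩ := ht' h.2
    refine ⟨max m n, hs _ _ ?_ hm, ht _ _ ?_ hn⟩
    · exact le_max_left m n
    · exact le_max_right m n
  isOpen_sUnion := by
    intro S hS
    refine ⟨fun x y h hx => ?_, fun h => ?_⟩
    · obtain ⟨s, hs, hx⟩ := hx
      exact ⟨s, hs, (hS s hs).1 x y h hx⟩
    · obtain ⟨s, hs, hx⟩ := h
      obtain ⟨n, hn⟩ := (hS s hs).2 hx
      exact ⟨n, s, hs, hn⟩

theorem isOpen_def {U : Set Pt} : IsOpen U ↔
    (∀ x y, ple x y → x ∈ U → y ∈ U) ∧ (Pt.top ∈ U → ∃ n, Pt.nat n ∈ U) := Iff.rfl

/-- The specialization order is `ple`. -/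
theorem mem_closure_iff_ple {x y : Pt} : x ∈ closure ({y} : Set Pt) ↔ ple x y := by
  constructor
  · intro h
    -- the set of points not below `y` is open
    have hop : IsOpen {z : Pt | ¬ ple z y} := by
      refine ⟨fun u v huv hu hv => hu (ple_trans huv hv), fun h => ?_⟩
      cases y with
      | nat n => exact ⟨n + 1, by simp [ple]⟩
      | top => exact absurd (by simp [ple]) h
      | a => exact ⟨0, by simp [ple]⟩
      | b => exact ⟨0, by simp [ple]⟩
      | c n => exact ⟨0, by simp [ple]⟩
    by_contra hxy
    have := mem_closure_iff.1 h _ hop hxy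
    obtain ⟨z, hz, hz'⟩ := this
    rw [mem_singleton_iff] at hz'
    subst hz'
    exact hz (ple_refl _)
  · intro h
    rw [mem_closure_iff]
    intro o ho hx
    exact ⟨y, ho.1 x y h hx, rfl⟩

theorem mem_upSet {x y : Pt} : y ∈ upSet x ↔ ple x y := mem_closure_iff_ple

theorem strongD : IsStrongDSpace Pt := by
  constructor
  · constructor
    intro x y h
    have h1 : x ∈ closure ({y} : Set Pt) := by
      rw [← specializes_iff_mem_closure]
      exact h.symm.specializes
    have h2 : y ∈ closure ({x} : Set Pt) := by
      rw [← specializes_iff_mem_closure]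
      exact h.specializes
    exact ple_antisymm (mem_closure_iff_ple.1 h1) (mem_closure_iff_ple.1 h2)
  · intro D hD hdir x U hU hsub
    have hdir' : ∀ u ∈ D, ∀ v ∈ D, ∃ w ∈ D, ple u w ∧ ple v w := by
      intro u hu v hv
      obtain ⟨w, hw, h1, h2⟩ := hdir u hu v hv
      exact ⟨w, hw, mem_closure_iff_ple.1 h1, mem_closure_iff_ple.1 h2⟩
    -- if there is a maximum, done
    by_cases hmax : ∃ m ∈ D, ∀ d ∈ D, ple d m
    · obtain ⟨m, hm, hmm⟩ := hmax
      refine ⟨m, hm, fun y hy => hsub ⟨?_, hy.2⟩⟩
      rw [mem_iInter₂]
      intro d hd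
      exact mem_upSet.2 (ple_trans (hmm d hd) (mem_upSet.1 hy.1))
    · -- otherwise `D` consists of `nat`s and is unbounded
      push Not at hmax
      have hmaxl : ∀ d ∈ D, (∀ w, ple d w → w = d) → False := by
        intro d hd h
        obtain ⟨d', hd', hnot⟩ := hmax d hd
        obtain ⟨w, hw, h1, h2⟩ := hdir' d hd d' hd'
        rw [h w h1] at h2
        exact hnot h2
      have hc : ∀ n, Pt.c n ∉ D := by
        intro n hn
        refine hmaxl _ hn fun w hw => ?_
        cases w with
        | c m => rw [show n = m from hw]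
        | nat m => exact absurd hw (by simp [ple])
        | top => exact absurd hw (by simp [ple])
        | a => exact absurd hw (by simp [ple])
        | b => exact absurd hw (by simp [ple])
      have htopn : Pt.top ∉ D := by
        intro hn
        refine hmaxl _ hn fun w hw => ?_
        cases w with
        | c m => exact absurd hw (by simp [ple])
        | nat m => exact absurd hw (by simp [ple])
        | top => rfl
        | a => exact absurd hw (by simp [ple])
        | b => exact absurd hw (by simp [ple])
      have ha : Pt.a ∉ D := by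
        intro hn
        obtain ⟨d', hd', hnot⟩ := hmax _ hn
        obtain ⟨w, hw, h1, h2⟩ := hdir' _ hn d' hd'
        cases w with
        | c m => exact hc m hw
        | nat m => exact absurd h1 (by simp [ple])
        | top => exact absurd h1 (by simp [ple])
        | a => exact hnot h2
        | b => exact absurd h1 (by simp [ple])
      have hb : Pt.b ∉ D := by
        intro hn
        obtain ⟨d', hd', hnot⟩ := hmax _ hn
        obtain ⟨w, hw, h1, h2⟩ := hdir' _ hn d' hd'
        cases w with
        | c m => exact hc m hw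
        | nat m => exact absurd h1 (by simp [ple])
        | top => exact absurd h1 (by simp [ple])
        | a => exact absurd h1 (by simp [ple])
        | b => exact hnot h2
      have hnat : ∀ d ∈ D, ∃ n, d = Pt.nat n := by
        intro d hd
        cases d with
        | nat n => exact ⟨n, rfl⟩
        | top => exact absurd hd htopn
        | a => exact absurd hd ha
        | b => exact absurd hd hb
        | c n => exact absurd hd (hc n)
      have hunb : ∀ k, ∃ n, k ≤ n ∧ Pt.nat n ∈ D := by
        intro k
        by_contra hcon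
        push Not at hcon
        -- the set of `n` with `nat n ∈ D` is finite and nonempty, so has a maximum
        obtain ⟨d, hd⟩ := hD
        obtain ⟨n0, rfl⟩ := hnat d hd
        have hfin : {n | Pt.nat n ∈ D}.Finite :=
          (Set.finite_lt_nat k).subset fun n hn => by
            by_contra hh
            exact hcon n (not_lt.1 hh) hn
        have hne : {n | Pt.nat n ∈ D}.Nonempty := ⟨n0, hd⟩
        have hm : Pt.nat (sSup {n | Pt.nat n ∈ D}) ∈ D := Nat.sSup_mem hne hfin.bddAbove
        obtain ⟨d', hd', hnot⟩ := hmax _ hm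
        obtain ⟨n', rfl⟩ := hnat d' hd'
        exact hnot (le_csSup hfin.bddAbove (show n' ∈ {n | Pt.nat n ∈ D} from hd'))
      by_cases hx : ple x Pt.top
      · have htop : Pt.top ∈ U := by
          refine hsub ⟨?_, mem_upSet.2 hx⟩
          rw [mem_iInter₂]
          intro d hd
          obtain ⟨n, rfl⟩ := hnat d hd
          exact mem_upSet.2 trivial
        obtain ⟨n, hn⟩ := hU.2 htop
        obtain ⟨m, hnm, hm⟩ := hunb n
        refine ⟨_, hm, fun y hy => ?_⟩
        have h1 : ple (Pt.nat m) y := mem_upSet.1 hy.1
        exact hU.1 _ _ (ple_trans (show ple (Pt.nat n) (Pt.nat m) from hnm) h1) hn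
      · obtain ⟨d, hd⟩ := hD
        refine ⟨d, hd, fun y hy => ?_⟩
        exfalso
        obtain ⟨n, rfl⟩ := hnat d hd
        have h1 : ple (Pt.nat n) y := mem_upSet.1 hy.1
        have h2 : ple x y := mem_upSet.1 hy.2
        apply hx
        cases y with
        | nat m => exact ple_trans h2 trivial
        | top => exact h2
        | a => exact absurd h1 (by simp [ple])
        | b => exact absurd h1 (by simp [ple])
        | c m => exact absurd h1 (by simp [ple])

/-- The function space is not a strong `d`-space. -/
theorem not_strongD : ¬ IsStrongDSpace {f : Bool → Pt // Continuous f} := by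
  rintro ⟨-, h⟩
  -- the element with given values
  let mk : Pt → Pt → {f : Bool → Pt // Continuous f} := fun p q =>
    ⟨fun i => if i then p else q, continuous_of_discreteTopology⟩
  have hev : ∀ i : Bool, Continuous fun f : {f : Bool → Pt // Continuous f} => f.1 i :=
    fun i => (continuous_apply i).comp continuous_subtype_val
  -- the specialization order is pointwise
  have hle : ∀ f g : {f : Bool → Pt // Continuous f}, f ∈ closure {g} ↔
      ∀ i, ple (f.1 i) (g.1 i) := by
    intro f g
    rw [← specializes_iff_mem_closure, ← Topology.IsInducing.subtypeVal.specializes_iff,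
      specializes_pi]
    refine forall_congr' fun i => ?_
    rw [specializes_iff_mem_closure, mem_closure_iff_ple]
  let D : Set {f : Bool → Pt // Continuous f} := range fun k : ℕ => mk (Pt.nat k) Pt.a
  let U : Set {f : Bool → Pt // Continuous f} :=
    ⋃ n : ℕ, {f | f.1 true ∈ upSet (Pt.nat (n + 1)) ∧ f.1 false = Pt.c n}
  have hU : IsOpen U := by
    refine isOpen_iUnion fun n => ?_
    have h1 : IsOpen (upSet (Pt.nat (n + 1))) := by
      refine ⟨fun x y hxy hx => mem_upSet.2 (ple_trans (mem_upSet.1 hx) hxy), fun _ => ?_⟩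
      exact ⟨n + 1, mem_upSet.2 (ple_refl _)⟩
    have h2 : IsOpen ({Pt.c n} : Set Pt) := by
      refine ⟨fun x y hxy hx => ?_, fun hx => ?_⟩
      · rw [mem_singleton_iff] at hx
        subst hx
        cases y <;> simp_all [ple]
      · simp at hx
    exact (h1.preimage (hev true)).inter (h2.preimage (hev false))
  have hDdir : DirectedOn (fun f g : {f : Bool → Pt // Continuous f} => f ∈ closure {g}) D := by
    rintro _ ⟨k, rfl⟩ _ ⟨l, rfl⟩
    refine ⟨_, ⟨max k l, rfl⟩, (hle _ _).2 ?_, (hle _ _).2 ?_⟩
    · intro i
      cases i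
      · exact ple_refl _
      · exact le_max_left k l
    · intro i
      cases i
      · exact ple_refl _
      · exact le_max_right k l
  obtain ⟨d, ⟨k, rfl⟩, hd⟩ := h D ⟨_, 0, rfl⟩ hDdir (mk (Pt.nat 0) Pt.b) U hU (by
    rintro f ⟨hf, hfx⟩
    have hf' : ∀ k : ℕ, ∀ i, ple ((mk (Pt.nat k) Pt.a).1 i) (f.1 i) := by
      intro k
      rw [← hle]
      exact mem_iInter₂.1 hf _ ⟨k, rfl⟩
    have hx' : ∀ i, ple ((mk (Pt.nat 0) Pt.b).1 i) (f.1 i) := (hle _ _).1 hfx
    have h1 : ∀ k : ℕ, ple (Pt.nat k) (f.1 true) := fun k => hf' k true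
    have h2 : ple Pt.a (f.1 false) := hf' 0 false
    have h3 : ple Pt.b (f.1 false) := hx' false
    obtain ⟨n, hn⟩ : ∃ n, f.1 false = Pt.c n := by
      cases hc : f.1 false with
      | c n => exact ⟨n, rfl⟩
      | _ => simp_all [ple]
    exact mem_iUnion.2 ⟨n, mem_upSet.2 (h1 (n + 1)), hn⟩)
  -- the point `(nat k, c k)` violates the inclusion
  have hmem : mk (Pt.nat k) (Pt.c k) ∈ U := by
    refine hd ⟨(hle _ _).2 ?_, (hle _ _).2 ?_⟩
    · intro i
      cases i
      · exact trivial
      · exact ple_refl _
    · intro i
      cases i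
      · exact trivial
      · exact Nat.zero_le k
  obtain ⟨n, hn1, hn2⟩ := mem_iUnion.1 hmem
  have h1 : ple (Pt.nat (n + 1)) (Pt.nat k) := mem_upSet.1 hn1
  have h2 : Pt.c k = Pt.c n := hn2
  have h3 : k = n := by simpa using h2
  have h4 : n + 1 ≤ k := h1
  omega

/-- There are a `T₀` space `X` (in fact the two-point discrete space) and a strong
`d`-space `Y` such that the space of continuous maps `X → Y` with the topology of
pointwise convergence is not a strong `d`-space. -/
theorem result : ∃ (X Y : Type) (_ : TopologicalSpace X) (_ : TopologicalSpace Y),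
    T0Space X ∧ IsStrongDSpace Y ∧ ¬ IsStrongDSpace {f : X → Y // Continuous f} :=
  ⟨Bool, Pt, inferInstance, inferInstance, inferInstance, strongD, not_strongD⟩

end Pool.Agent.Results.MP_5f2357_gt.PowerFails
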